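import Mathlib

namespace Pool.Agent.Results.MP_b9dfd5_co.Two

def Dom {n : ℕ} (G : SimpleGraph (Fin n)) (S : Finset (Fin n)) : Prop :=
  ∀ v, v ∈ S ∨ ∃ u ∈ S, G.Adj u v

def GSet {n : ℕ} (G : SimpleGraph (Fin n)) : Type :=
  {S : Finset (Fin n) // Dom G S ∧ ∀ T, Dom G T → S.card ≤ T.card}

def gam {n : ℕ} (G : SimpleGraph (Fin n)) : SimpleGraph (GSet G) :=
  SimpleGraph.fromRel fun S T => ∃ u ∈ S.1, ∃ v ∈ T.1, G.Adj u v ∧ T.1 = insert v (S.1.erase u)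

open Finset

def mk (g : Fin 11 → ℕ) : SimpleGraph (Fin 11) where
  Adj u v := u ≠ v ∧ (g u).testBit v.val = true ∧ (g v).testBit u.val = true
  symm := ⟨fun _ _ h => ⟨h.1.symm, h.2.2, h.2.1⟩⟩
  loopless := ⟨fun _ h => h.1 rfl⟩

instance (g : Fin 11 → ℕ) : DecidableRel (mk g).Adj := fun u v =>
  inferInstanceAs (Decidable (u ≠ v ∧ (g u).testBit v.val = true ∧ (g v).testBit u.val = true))

def gA : Fin 11 → ℕ := ![1120, 12, 138, 54, 40, 1113, 1825, 260, 704, 320, 97]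
def gB : Fin 11 → ℕ := ![1664, 160, 280, 20, 108, 210, 48, 1571, 516, 1409, 641]
def fA : Fin 11 → Finset (Fin 11) := ![{0, 3, 8}, {1, 5, 8}, {2, 3, 6}, {2, 4, 6}, {2, 5, 6},
  {2, 5, 8}, {2, 5, 9}, {3, 5, 8}, {3, 6, 7}, {3, 6, 8}, {3, 8, 10}]
def fB : Fin 11 → Finset (Fin 11) := ![{0, 2, 5}, {1, 4, 9}, {4, 7, 9}, {4, 5, 9}, {3, 5, 9},
  {2, 5, 9}, {2, 5, 7}, {4, 7, 8}, {2, 4, 7}, {2, 6, 7}, {2, 5, 10}]

lemma small (T : Finset (Fin 11)) (h0 : T.Nonempty) (h : T.card ≤ 3) : ∃ a b c, T = {a, b, c} := by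
  have := card_pos.2 h0
  obtain h1 | h1 | h1 : T.card = 1 ∨ T.card = 2 ∨ T.card = 3 := by omega
  · obtain ⟨a, rfl⟩ := card_eq_one.1 h1; exact ⟨a, a, a, by simp⟩
  · obtain ⟨a, b, -, rfl⟩ := card_eq_two.1 h1; exact ⟨a, b, b, by simp⟩
  · obtain ⟨a, b, c, -, -, -, rfl⟩ := card_eq_three.1 h1; exact ⟨a, b, c, rfl⟩

lemma step (A B : SimpleGraph (Fin 11)) (f : Fin 11 → Finset (Fin 11))
    (h1 : ∀ i j, f i = f j → i = j)
    (h2 : ∀ i, (f i).card = 3 ∧ ∀ v, v ∈ f i ∨ ∃ u ∈ f i, A.Adj u v)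
    (h3 : ∀ a b c, (∀ v, (v = a ∨ v = b ∨ v = c) ∨ A.Adj a v ∨ A.Adj b v ∨ A.Adj c v) →
      ∃ i, f i = {a, b, c})
    (h4 : ∀ a b, B.Adj a b ↔ ∃ u ∈ f a, ∃ v, v ∉ f a ∧ A.Adj u v ∧ f b = insert v ((f a).erase u)) :
    ∃ e : Fin 11 ≃
          {S : Finset (Fin 11) //
            (∀ v, v ∈ S ∨ ∃ u ∈ S, A.Adj u v) ∧
            ∀ T : Finset (Fin 11),
              (∀ v, v ∈ T ∨ ∃ u ∈ T, A.Adj u v) → S.card ≤ T.card},
        ∀ a b, B.Adj a b ↔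
          ∃ u v, u ∈ (e a).1 ∧ v ∉ (e a).1 ∧ A.Adj u v ∧
            (e b).1 = insert v ((e a).1.erase u) := by
  have key : ∀ T : Finset (Fin 11), (∀ v, v ∈ T ∨ ∃ u ∈ T, A.Adj u v) → T.card ≤ 3 →
      ∃ i, f i = T := by
    intro T hT hc
    have hne : T.Nonempty := by
      rcases hT 0 with h | ⟨u, hu, -⟩
      exacts [⟨0, h⟩, ⟨u, hu⟩]
    obtain ⟨a, b, c, rfl⟩ := small T hne hc
    apply h3
    intro v
    simpa using hT v
  have hmin : ∀ i, ∀ T : Finset (Fin 11), (∀ v, v ∈ T ∨ ∃ u ∈ T, A.Adj u v) →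
      (f i).card ≤ T.card := by
    intro i T hT
    by_contra hlt
    rw [(h2 i).1] at hlt
    obtain ⟨j, rfl⟩ := key T hT (by omega)
    exact hlt (h2 j).1.ge
  refine ⟨Equiv.ofBijective (fun i => ⟨f i, (h2 i).2, hmin i⟩) ⟨?_, ?_⟩, ?_⟩
  · intro i j h
    exact h1 i j (congrArg Subtype.val h)
  · rintro ⟨S, hS, hS'⟩
    obtain ⟨i, hi⟩ := key S hS ((hS' (f 0) (h2 0).2).trans (h2 0).1.le)
    exact ⟨i, Subtype.ext hi⟩
  · intro a b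
    rw [h4]
    simp only [Equiv.ofBijective_apply]
    constructor
    · rintro ⟨u, hu, v, h⟩; exact ⟨u, v, hu, h⟩
    · rintro ⟨u, v, hu, h⟩; exact ⟨u, hu, v, h⟩

lemma degB : ∀ v, (mk gB).degree v = 5 → v = 7 := by decide +kernel
lemma degA : (mk gA).degree 5 = 5 ∧ (mk gA).degree 6 = 5 := by decide +kernel

lemma iso (A B : SimpleGraph (Fin 11)) (e : Fin 11 ≃ GSet A)
    (h : ∀ a b, B.Adj a b ↔ ∃ u v, u ∈ (e a).1 ∧ v ∉ (e a).1 ∧ A.Adj u v ∧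
      (e b).1 = insert v ((e a).1.erase u)) : Nonempty (gam A ≃g B) := by
  have key : ∀ a b, (∃ u ∈ (e a).1, ∃ v ∈ (e b).1, A.Adj u v ∧ (e b).1 = insert v ((e a).1.erase u)) →
      B.Adj a b := by
    rintro a b ⟨u, hu, v, -, h1, h2⟩
    refine (h a b).2 ⟨u, v, hu, fun hv => ?_, h1, h2⟩
    have h3 := (e a).2.2 _ (e b).2.1
    rw [h2, insert_eq_of_mem (mem_erase.2 ⟨h1.ne', hv⟩), card_erase_of_mem hu] at h3
    have := card_pos.2 ⟨u, hu⟩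
    omega
  refine ⟨SimpleGraph.Iso.symm ⟨e, fun {a b} => ⟨?_, fun hab => ⟨e.injective.ne hab.ne, Or.inl ?_⟩⟩⟩⟩
  · rintro ⟨-, h1 | h1⟩
    · exact key a b h1
    · exact (key b a h1).symm
  · obtain ⟨u, v, h1, -, h2, h3⟩ := (h a b).1 hab
    exact ⟨u, h1, v, h3 ▸ mem_insert_self _ _, h2, h3⟩

theorem result : ∃ (n m : ℕ) (G : SimpleGraph (Fin n)) (H : SimpleGraph (Fin m)),
    IsEmpty (G ≃g H) ∧ Nonempty (gam G ≃g H) ∧ Nonempty (gam H ≃g G) := by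
  refine ⟨11, 11, mk gA, mk gB, ⟨fun φ' => ?_⟩, ?_, ?_⟩
  · have h5 := degB (φ' 5) (by rw [φ'.degree_eq, degA.1])
    have h6 := degB (φ' 6) (by rw [φ'.degree_eq, degA.2])
    have := φ'.injective (h5.trans h6.symm)
    exact absurd this (by decide)
  · obtain ⟨e, h⟩ := step (mk gA) (mk gB) fA (by decide +kernel) (by decide +kernel) (by decide +kernel)
      (by decide +kernel)
    exact iso _ _ e h
  · obtain ⟨e, h⟩ := step (mk gB) (mk gA) fB (by decide +kernel) (by decide +kernel) (by decide +kernel)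
      (by decide +kernel)
    exact iso _ _ e h

end Pool.Agent.Results.MP_b9dfd5_co.Two
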